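import Mathlib

/-!
# Generalized Bernoulli polynomials of natural order
-/

set_option autoImplicit false

open Finset

namespace Pool.Agent.Q165.NB

open PowerSeries

/-- `(t / (e^t - 1)) ^ a * e^(x t)` -/
noncomputable def G (a : ℕ) (x : ℝ) : ℝ⟦X⟧ := (bernoulliPowerSeries ℝ) ^ a * rescale x (exp ℝ)

/-- the generalized Bernoulli polynomials of order `a` -/
noncomputable def B (a m : ℕ) (x : ℝ) : ℝ := m.factorial * coeff m (G a x)

theorem G_add (a : ℕ) (x y : ℝ) : G a (x + y) = G a x * rescale y (exp ℝ) := by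
  unfold G
  rw [mul_assoc, exp_mul_exp_eq_exp_add]

theorem B_add (a m : ℕ) (x y : ℝ) :
    B a m (x + y) = ∑ r ∈ range (m + 1), (m.choose r : ℝ) * y ^ r * B a (m - r) x := by
  unfold B
  rw [G_add, coeff_mul, Finset.mul_sum, ← Finset.Nat.sum_antidiagonal_swap,
    Nat.sum_antidiagonal_eq_sum_range_succ_mk]
  refine Finset.sum_congr rfl fun r hr => ?_
  have hr' : r ≤ m := Nat.lt_succ_iff.1 (mem_range.1 hr)
  rw [coeff_rescale, coeff_exp]
  have h1 : (m.choose r : ℝ) = m.factorial / (r.factorial * (m - r).factorial) :=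
    Nat.cast_choose ℝ hr'
  simp only [Prod.fst_swap, Prod.snd_swap]
  rw [h1]
  have h2 : (r.factorial : ℝ) ≠ 0 := by exact_mod_cast r.factorial_ne_zero
  have h3 : ((m - r).factorial : ℝ) ≠ 0 := by exact_mod_cast (m - r).factorial_ne_zero
  simp only [one_div, map_inv₀, map_natCast]
  field_simp

theorem B_zero (a : ℕ) (x : ℝ) : B a 0 x = 1 := by
  unfold B G
  have h1 : constantCoeff (bernoulliPowerSeries ℝ) = 1 := by
    rw [← coeff_zero_eq_constantCoeff_apply]
    simp [bernoulliPowerSeries]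
  have h2 : constantCoeff (rescale x (exp ℝ)) = 1 := by
    rw [← coeff_zero_eq_constantCoeff_apply, coeff_rescale]
    simp
  rw [coeff_zero_eq_constantCoeff_apply, map_mul, map_pow, h1, h2]
  simp

theorem B_diff (a m : ℕ) (x : ℝ) : B (a + 1) (m + 1) (x + 1) - B (a + 1) (m + 1) x = (m + 1) * B a m x := by
  have h1 : G (a + 1) (x + 1) - G (a + 1) x = X * G a x := by
    rw [G_add, rescale_one, RingHom.id_apply]
    unfold G
    have h := bernoulliPowerSeries_mul_exp_sub_one ℝ
    rw [pow_succ]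
    linear_combination ((bernoulliPowerSeries ℝ) ^ a * (rescale x) (exp ℝ)) * h
  unfold B
  rw [← mul_sub, ← map_sub, h1, coeff_succ_X_mul, Nat.factorial_succ]
  push_cast
  ring

theorem B_hasDeriv (a m : ℕ) (x : ℝ) : HasDerivAt (B a (m + 1)) ((m + 1) * B a m x) x := by
  have h1 : B a (m + 1) = fun u => ∑ r ∈ range (m + 1 + 1), ((m + 1).choose r : ℝ) * (u - x) ^ r *
      B a (m + 1 - r) x := by
    ext u
    rw [← B_add]
    congr 1
    ring
  rw [h1]
  have h2 : ∀ r ∈ range (m + 1 + 1), HasDerivAt (fun u : ℝ => ((m + 1).choose r : ℝ) * (u - x) ^ r *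
      B a (m + 1 - r) x) (((m + 1).choose r : ℝ) * (r * (x - x) ^ (r - 1) * 1) * B a (m + 1 - r) x) x := by
    intro r _
    exact ((((hasDerivAt_id x).sub_const x).pow r).const_mul _).mul_const _
  have h3 := HasDerivAt.fun_sum h2
  have h4 : ∑ r ∈ range (m + 1 + 1), ((m + 1).choose r : ℝ) * (r * (x - x) ^ (r - 1) * 1) *
      B a (m + 1 - r) x = (m + 1) * B a m x := by
    rw [Finset.sum_eq_single 1]
    · simp
    · intro r _ hr1
      rcases Nat.eq_zero_or_pos r with h0 | h0
      · subst h0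
        simp
      · have : r - 1 ≠ 0 := by omega
        simp [this]
    · intro h
      exact absurd (mem_range.2 (by omega)) h
  rw [h4] at h3
  exact h3

/-- the polynomial -/
noncomputable def QP (a m : ℕ) : Polynomial ℝ :=
  ∑ r ∈ range (m + 1), Polynomial.C ((m.choose r : ℝ) * B a (m - r) 0) * Polynomial.X ^ r

theorem QP_eval (a m : ℕ) (x : ℝ) : (QP a m).eval x = B a m x := by
  unfold QP
  rw [Polynomial.eval_finsetSum]
  have h := B_add a m 0 x
  rw [zero_add] at h
  rw [h]
  refine Finset.sum_congr rfl fun r _ => ?_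
  simp
  ring

/-- value at one -/
theorem B_one (n : ℕ) : B (n + 2) (n + 1) 1 = 0 := by
  set w : ℝ⟦X⟧ := bernoulliPowerSeries ℝ with hw
  have h := bernoulliPowerSeries_mul_exp_sub_one ℝ
  rw [← hw] at h
  -- derivative
  have hexp : (PowerSeries.derivative ℝ) (exp ℝ) = exp ℝ := by
    ext m
    rw [coeff_derivative, coeff_exp, coeff_exp, Nat.factorial_succ]
    have h2 : (m.factorial : ℝ) ≠ 0 := by exact_mod_cast m.factorial_ne_zero
    have h3 : ((m : ℝ) + 1) ≠ 0 := by positivity
    simp only [one_div, map_inv₀, map_natCast]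
    push_cast
    field_simp
  have h1 := congrArg (PowerSeries.derivative ℝ) h
  rw [Derivation.leibniz, map_sub, hexp, derivative_one, sub_zero, derivative_X] at h1
  simp only [smul_eq_mul] at h1
  have h2 : w ^ 2 * exp ℝ = w - X * (PowerSeries.derivative ℝ) w := by
    linear_combination w * h1 - ((PowerSeries.derivative ℝ) w) * h
  have h3 : w ^ (n + 2) * exp ℝ = w ^ (n + 1) - X * (w ^ n * (PowerSeries.derivative ℝ) w) := by
    linear_combination w ^ n * h2
  have h4 : (PowerSeries.derivative ℝ) (w ^ (n + 1)) =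
      ((n + 1 : ℕ) : ℝ⟦X⟧) * w ^ n * (PowerSeries.derivative ℝ) w := by
    have := derivative_pow w (n + 1)
    simpa using this
  unfold B G
  rw [rescale_one, RingHom.id_apply, ← hw, h3, map_sub, coeff_succ_X_mul]
  have h5 := congrArg (coeff n) h4
  rw [coeff_derivative] at h5
  have h6 : coeff n (((n + 1 : ℕ) : ℝ⟦X⟧) * w ^ n * (PowerSeries.derivative ℝ) w) =
      ((n : ℝ) + 1) * coeff n (w ^ n * (PowerSeries.derivative ℝ) w) := by
    have h7 : ((n + 1 : ℕ) : ℝ⟦X⟧) = C ((n + 1 : ℕ) : ℝ) := by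
      rw [map_natCast]
    rw [h7, mul_assoc, coeff_C_mul]
    push_cast
    ring
  rw [h6] at h5
  have h8 : coeff (n + 1) (w ^ (n + 1)) - coeff n (w ^ n * (PowerSeries.derivative ℝ) w) = 0 := by
    have h9 : ((n : ℝ) + 1) ≠ 0 := by positivity
    have h10 : ((n : ℝ) + 1) * (coeff (n + 1) (w ^ (n + 1)) -
        coeff n (w ^ n * (PowerSeries.derivative ℝ) w)) = 0 := by linarith
    rcases mul_eq_zero.1 h10 with h11 | h11
    · exact absurd h11 h9
    · exact h11
  rw [h8, mul_zero]

/-- shifted falling factorials -/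
noncomputable def F (n : ℕ) (x : ℝ) : ℝ := ∏ j ∈ range n, (x - ((j : ℝ) + 1))

theorem F_diff (n : ℕ) (x : ℝ) : F (n + 1) (x + 1) - F (n + 1) x = (n + 1) * F n x := by
  unfold F
  rw [Finset.prod_range_succ', Finset.prod_range_succ _ n]
  have h1 : ∏ k ∈ range n, (x + 1 - (((k + 1 : ℕ) : ℝ) + 1)) = ∏ k ∈ range n, (x - ((k : ℝ) + 1)) := by
    refine Finset.prod_congr rfl fun k _ => ?_
    push_cast
    ring
  rw [h1]
  push_cast
  ring

theorem F_one (n : ℕ) : F (n + 1) 1 = 0 := by
  unfold F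
  rw [Finset.prod_range_succ']
  simp

theorem B_eq_F (n : ℕ) : ∀ x, B (n + 1) n x = F n x := by
  induction n with
  | zero =>
    intro x
    rw [B_zero]
    simp [F]
  | succ n ih =>
    -- the polynomial `∏ (X - (j+1))`
    set FP : Polynomial ℝ := ∏ j ∈ range (n + 1), (Polynomial.X - Polynomial.C ((j : ℝ) + 1)) with hFP
    have hFe : ∀ x, FP.eval x = F (n + 1) x := by
      intro x
      rw [hFP, Polynomial.eval_prod]
      unfold F
      refine Finset.prod_congr rfl fun j _ => ?_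
      simp
    have hnat : ∀ k : ℕ, B (n + 2) (n + 1) ((k : ℝ) + 1) = F (n + 1) ((k : ℝ) + 1) := by
      intro k
      induction k with
      | zero =>
        rw [Nat.cast_zero, zero_add, B_one, F_one]
      | succ k ihk =>
        have h1 := B_diff (n + 1) n ((k : ℝ) + 1)
        have h2 := F_diff n ((k : ℝ) + 1)
        rw [ih] at h1
        push_cast
        linarith
    have hpoly : QP (n + 2) (n + 1) = FP := by
      refine Polynomial.eq_of_infinite_eval_eq _ _ ?_
      refine Set.infinite_of_injective_forall_mem (f := fun k : ℕ => (k : ℝ) + 1) ?_ fun k => ?_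
      · intro a b hab
        simp only at hab
        have : (a : ℝ) = b := by linarith
        exact_mod_cast this
      · show (QP (n + 2) (n + 1)).eval ((k : ℝ) + 1) = FP.eval ((k : ℝ) + 1)
        rw [QP_eval, hFe, hnat]
    intro x
    rw [← QP_eval, hpoly, hFe]

/-- the values of `B_n^(n)` -/
theorem B_mean (n : ℕ) (x : ℝ) : ∃ c ∈ Set.Ioo x (x + 1), B n n x = F n c := by
  have hc : ∀ y, HasDerivAt (B (n + 1) (n + 1)) ((n + 1) * B (n + 1) n y) y := fun y =>
    B_hasDeriv (n + 1) n y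
  obtain ⟨c, hc1, hc2⟩ := exists_hasDerivAt_eq_slope (B (n + 1) (n + 1))
    (fun y => (n + 1) * B (n + 1) n y) (by linarith : x < x + 1)
    (fun y _ => (hc y).continuousAt.continuousWithinAt) (fun y _ => hc y)
  refine ⟨c, hc1, ?_⟩
  rw [add_sub_cancel_left, div_one, B_diff, B_eq_F] at hc2
  have h9 : ((n : ℝ) + 1) ≠ 0 := by positivity
  exact (mul_left_cancel₀ h9 hc2).symm

theorem F_sign (n j : ℕ) (hj : j ≤ n) {c : ℝ} (hc : c ∈ Set.Ioo (j : ℝ) (j + 1)) :
    0 < (-1) ^ (n - j) * F n c := by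
  unfold F
  rw [← Finset.prod_range_mul_prod_Ico _ hj]
  have h1 : 0 < ∏ k ∈ range j, (c - ((k : ℝ) + 1)) := by
    refine Finset.prod_pos fun k hk => ?_
    have : (k : ℝ) + 1 ≤ j := by exact_mod_cast mem_range.1 hk
    linarith [hc.1]
  have h2 : 0 < (-1 : ℝ) ^ (n - j) * ∏ k ∈ Finset.Ico j n, (c - ((k : ℝ) + 1)) := by
    have h3 : (-1 : ℝ) ^ (n - j) = ∏ _k ∈ Finset.Ico j n, (-1 : ℝ) := by
      rw [Finset.prod_const, Nat.card_Ico]
    rw [h3, ← Finset.prod_mul_distrib]
    refine Finset.prod_pos fun k hk => ?_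
    have : (j : ℝ) ≤ k := by exact_mod_cast (Finset.mem_Ico.1 hk).1
    linarith [hc.2]
  calc (0 : ℝ) < (∏ k ∈ range j, (c - ((k : ℝ) + 1))) *
        ((-1 : ℝ) ^ (n - j) * ∏ k ∈ Finset.Ico j n, (c - ((k : ℝ) + 1))) := mul_pos h1 h2
    _ = _ := by ring

theorem B_sign (n j : ℕ) (hj : j ≤ n) : 0 < (-1) ^ (n - j) * B n n (j : ℝ) := by
  obtain ⟨c, hc, h⟩ := B_mean n (j : ℝ)
  rw [h]
  exact F_sign n j hj hc

theorem QP_cont (n : ℕ) : Continuous (B n n) := by
  have : B n n = fun x => (QP n n).eval x := by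
    ext x
    rw [QP_eval]
  rw [this]
  exact (QP n n).continuous

/-- roots -/
theorem exists_roots (n : ℕ) : ∃ r : ℕ → ℝ, ∀ j < n, (j : ℝ) < r j ∧ r j < j + 1 ∧ B n n (r j) = 0 := by
  have h : ∀ j : ℕ, ∃ r : ℝ, j < n → (j : ℝ) < r ∧ r < j + 1 ∧ B n n r = 0 := by
    intro j
    by_cases hj : j < n
    · have h1 := B_sign n j hj.le
      have h2 := B_sign n (j + 1) hj
      have h3 : n - j = n - (j + 1) + 1 := by omega
      rw [h3, pow_succ] at h1
      push_cast at h2
      set s : ℝ := (-1) ^ (n - (j + 1)) with hs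
      have hs1 : s * s = 1 := by
        rw [hs, ← pow_add, ← two_mul, pow_mul]
        norm_num
      have hcont : ContinuousOn (fun x => s * B n n x) (Set.Icc (j : ℝ) (j + 1)) :=
        ((QP_cont n).const_smul s).continuousOn
      have hmem : (0 : ℝ) ∈ Set.Ioo (s * B n n (j : ℝ)) (s * B n n ((j : ℝ) + 1)) := by
        constructor
        · linarith
        · exact h2
      obtain ⟨r, hr, hr0⟩ := intermediate_value_Ioo (by linarith : (j : ℝ) ≤ j + 1) hcont hmem
      refine ⟨r, fun _ => ⟨hr.1, hr.2, ?_⟩⟩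
      simp only at hr0
      have : s * (s * B n n r) = 0 := by rw [hr0, mul_zero]
      rw [← mul_assoc, hs1, one_mul] at this
      exact this
    · exact ⟨0, fun h => absurd h hj⟩
  choose r hr using h
  exact ⟨r, hr⟩

theorem QP_monic (n : ℕ) : (QP n n).Monic ∧ (QP n n).natDegree = n := by
  have h1 : (QP n n).coeff n = 1 := by
    unfold QP
    rw [Polynomial.finsetSum_coeff, Finset.sum_eq_single n]
    · simp [B_zero]
    · intro r _ hr
      rw [Polynomial.coeff_C_mul_X_pow, if_neg hr.symm]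
    · intro h
      exact absurd (mem_range.2 (Nat.lt_succ_self n)) h
  have h2 : (QP n n).natDegree ≤ n := by
    unfold QP
    refine Polynomial.natDegree_sum_le_of_forall_le _ _ fun r hr => ?_
    exact (Polynomial.natDegree_C_mul_X_pow_le _ _).trans (Nat.lt_succ_iff.1 (mem_range.1 hr))
  have h3 : (QP n n).natDegree = n :=
    le_antisymm h2 (Polynomial.le_natDegree_of_ne_zero (by rw [h1]; exact one_ne_zero))
  refine ⟨?_, h3⟩
  rw [Polynomial.Monic, Polynomial.leadingCoeff, h3, h1]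

/-- `B_n^(n)` is a product of real linear factors -/
theorem B_prod (n : ℕ) : ∃ r : ℕ → ℝ, (∀ j < n, (j : ℝ) < r j ∧ r j < j + 1) ∧
    QP n n = ∏ j ∈ range n, (Polynomial.X - Polynomial.C (r j)) := by
  obtain ⟨r, hr⟩ := exists_roots n
  refine ⟨r, fun j hj => ⟨(hr j hj).1, (hr j hj).2.1⟩, ?_⟩
  obtain ⟨hm, hd⟩ := QP_monic n
  have hne : QP n n ≠ 0 := hm.ne_zero
  have hinj : ∀ i ∈ range n, ∀ j ∈ range n, r i = r j → i = j := by
    intro i hi j hj hij
    have h1 := hr i (mem_range.1 hi)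
    have h2 := hr j (mem_range.1 hj)
    have h3 : (i : ℝ) < j + 1 := by linarith [h1.1, h2.2.1]
    have h4 : (j : ℝ) < i + 1 := by linarith [h1.2.1, h2.1]
    have h5 : i < j + 1 := by exact_mod_cast h3
    have h6 : j < i + 1 := by exact_mod_cast h4
    omega
  have hdvd : (∏ j ∈ range n, (Polynomial.X - Polynomial.C (r j))) ∣ QP n n := by
    have h1 : (∏ j ∈ range n, (Polynomial.X - Polynomial.C (r j))) =
        (((range n).val.map r).map fun a => Polynomial.X - Polynomial.C a).prod := by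
      rw [Multiset.map_map]
      rfl
    rw [h1, Multiset.prod_X_sub_C_dvd_iff_le_roots hne, Multiset.le_iff_subset]
    · intro a ha
      obtain ⟨j, hj, rfl⟩ := Multiset.mem_map.1 ha
      rw [Polynomial.mem_roots hne, Polynomial.IsRoot, QP_eval]
      exact (hr j (mem_range.1 hj)).2.2
    · exact Multiset.Nodup.map_on (fun i hi j hj => hinj i hi j hj) (range n).nodup
  have hmon : (∏ j ∈ range n, (Polynomial.X - Polynomial.C (r j))).Monic :=
    Polynomial.monic_prod_of_monic _ _ fun j _ => Polynomial.monic_X_sub_C _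
  refine (Polynomial.eq_of_monic_of_dvd_of_natDegree_le hmon hm hdvd ?_)
  rw [hd, Polynomial.natDegree_prod_of_monic _ _ fun j _ => Polynomial.monic_X_sub_C _]
  simp

end Pool.Agent.Q165.NB
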